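import Pool.Agent.H35.AC.Defs

/-!
# [H35 AC TRV] the trivial upper bound

`trv`: at most `C (card P)^(#E) Y (1 + log Y)^A` homomorphisms in `PU L c E Y`.
Proof. `φ` is determined by the values at `L.t v`, `v` in `E` or in the set `n` of the primes outside `S0`, `E` with `φ (L.t v) ≠ 1`, and at the `A.a i`
(`H77.WE.hon_eqU` with `Z = n ∪ n' ∪ E`, `A` from `gs_exists`); these primes are ramified, so `nr n ≤ Y`, `n ∈ AF K Y`. So the number is at most
`∑_(n ∈ AF K Y) (card P)^(#n + #E + A.g)`, and `H63.MA.af_pow`.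
-/

set_option autoImplicit false

open scoped NumberField
open IsDedekindDomain Filter Topology
open scoped Classical

noncomputable section

namespace H35.AC

open H38.ML H63.MA H38.BB H38.BG H57.PC H57.BRA H77.WD H77.WE H77.PC3 H77.PLF H35.UB

variable {K : IntermediateField ℚ QBar} [NumberField K] {p : ℕ} {ζ : K} {D : RD0 K p ζ}
  {P : Type} [Group P] [Finite P] {N : ℕ}

theorem lt_mem (L : LDs D QBar) {v : Pl K} (hv : v ∉ D.S0) : L.t v ∈ inr L v := by
  unfold inr LDs.t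
  rw [dif_pos hv, dif_pos hv]
  exact (L.ld v hv).ht

omit [Finite P] in
private theorem ram_fin {E : Finset (Pl K)} {Y : ℝ} {φ : Gal(QBar/K) →* P} (L : LDs D QBar)
    (h : ∀ T : Finset (Pl K), (∀ v ∈ T, v ∉ D.S0 ∧ v ∉ E ∧ ¬ ∀ τ ∈ inr L v, φ τ = 1) →
      ∏ v ∈ T, (nm v : ℝ) ≤ Y) :
    {v : Pl K | v ∉ D.S0 ∧ v ∉ E ∧ φ (L.t v) ≠ 1}.Finite := by
  by_contra hinf
  obtain ⟨k, hk⟩ := pow_unbounded_of_one_lt Y (by norm_num : (1 : ℝ) < 2)
  obtain ⟨t, ht, hc⟩ := Set.Infinite.exists_subset_card_eq hinf k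
  have h1 := h t fun v hv => by
    obtain ⟨h1, h2, h3⟩ := ht hv
    exact ⟨h1, h2, fun h4 => h3 (h4 _ (lt_mem L h1))⟩
  have h2 := two_pow_le_nr t
  rw [hc] at h2
  exact absurd (h2.trans h1) (not_le.2 hk)

omit [Finite P] in
/-- the primes with `φ (L.t v) ≠ 1` -/
def nfs (L : LDs D QBar) (E : Finset (Pl K)) (φ : Gal(QBar/K) →* P) : Finset (Pl K) :=
  if h : {v : Pl K | v ∉ D.S0 ∧ v ∉ E ∧ φ (L.t v) ≠ 1}.Finite then h.toFinset else ∅

omit [Finite P] in
theorem mem_nfs {L : LDs D QBar} {c : CL p N P} {E : Finset (Pl K)} {Y : ℝ}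
    {φ : Gal(QBar/K) →* P} (h : φ ∈ PU L c E Y) (v : Pl K) :
    v ∈ nfs L E φ ↔ v ∉ D.S0 ∧ v ∉ E ∧ φ (L.t v) ≠ 1 := by
  unfold nfs
  rw [dif_pos (ram_fin L h.2.2.2), Set.Finite.mem_toFinset]
  rfl

omit [Finite P] in
theorem nfs_AF {L : LDs D QBar} {c : CL p N P} {E : Finset (Pl K)} {Y : ℝ}
    {φ : Gal(QBar/K) →* P} (h : φ ∈ PU L c E Y) : nfs L E φ ∈ AF K Y := by
  rw [mem_AF]
  refine h.2.2.2 _ fun v hv => ?_
  obtain ⟨h1, h2, h3⟩ := (mem_nfs h v).1 hv
  exact ⟨h1, h2, fun h4 => h3 (h4 _ (lt_mem L h1))⟩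

private def ev1 {K : Type} [Field K] [NumberField K] {P : Type} [Group P] {E : Finset (Pl K)}
    {g : ℕ} (s : Σ n : Finset (Pl K), ((n → P) × (E → P) × (Fin g → P))) (v : Pl K) : P :=
  if h : v ∈ s.1 then s.2.1 ⟨v, h⟩ else 1

private def ev2 {K : Type} [Field K] [NumberField K] {P : Type} [Group P] {E : Finset (Pl K)}
    {g : ℕ} (s : Σ n : Finset (Pl K), ((n → P) × (E → P) × (Fin g → P))) :
    (E → P) × (Fin g → P) := s.2.2

theorem trv (hp : p.Prime) (hζ : IsPrimitiveRoot ζ p) (hP : IsPGroup p P) (L : LDs D QBar)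
    (c : CL p N P) : ∃ C A : ℝ, 0 < C ∧ 0 ≤ A ∧ ∀ (E : Finset (Pl K)) (Y : ℝ), 1 ≤ Y →
      (PU L c E Y).Finite ∧
      ((PU L c E Y).ncard : ℝ) ≤ C * (Nat.card P : ℝ) ^ E.card * Y * (1 + Real.log Y) ^ A := by
  obtain ⟨A⟩ := gs_exists hp hζ D QBar
  haveI : Fintype P := Fintype.ofFinite P
  obtain ⟨C, B, hC, hB, hpow⟩ := af_pow K (Fintype.card P)
  have hcP : 0 < (Fintype.card P : ℝ) := by exact_mod_cast Fintype.card_pos
  refine ⟨C * (Fintype.card P : ℝ) ^ A.g, B, by positivity, hB, fun E Y hY => ?_⟩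
  let F : (Gal(QBar/K) →* P) → Σ n : Finset (Pl K), ((n → P) × (E → P) × (Fin A.g → P)) :=
    fun φ => ⟨nfs L E φ, fun v => φ (L.t v), fun v => φ (L.t v), fun i => φ (A.a i)⟩
  let S : Finset (Σ n : Finset (Pl K), ((n → P) × (E → P) × (Fin A.g → P))) :=
    (AF K Y).sigma fun _ => Finset.univ
  have hmap : ∀ φ ∈ PU L c E Y, F φ ∈ (S : Set _) := fun φ hφ => by
    rw [Finset.mem_coe, Finset.mem_sigma]
    exact ⟨nfs_AF hφ, Finset.mem_univ _⟩
  have hinj : Set.InjOn F (PU L c E Y) := by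
    intro φ hφ φ' hφ' h
    have e1 : nfs L E φ = nfs L E φ' := congrArg Sigma.fst h
    have e2 := congrArg ev1 h
    have e3 := congrArg ev2 h
    have hun : ∀ ψ ∈ PU L c E Y, nfs L E ψ = nfs L E φ → Unz L (nfs L E φ ∪ E) ψ := by
      intro ψ hψ hn
      refine ⟨hψ.1, fun v hv hz => ?_⟩
      by_contra h1
      apply hz
      by_cases hE : v ∈ E
      · exact Finset.mem_union_right _ hE
      · refine Finset.mem_union_left _ ?_
        rw [← hn]
        exact (mem_nfs hψ v).2 ⟨hv, hE, h1⟩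
    refine hon_eqU hp hζ L A (nfs L E φ ∪ E) φ φ' (hun φ hφ rfl) (hun φ' hφ' e1.symm)
      (hP.to_subgroup _) (hP.to_subgroup _) (fun v hv => ?_) fun i => ?_
    · rcases Finset.mem_union.1 hv with h1 | h1
      · have h2 : ev1 (F φ) v = φ (L.t v) := by
          unfold ev1
          rw [dif_pos (show v ∈ (F φ).1 from h1)]
        have h4 : v ∈ nfs L E φ' := by
          rw [← e1]
          exact h1
        have h3 : ev1 (F φ') v = φ' (L.t v) := by
          unfold ev1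
          rw [dif_pos (show v ∈ (F φ').1 from h4)]
        rw [← h2, ← h3, e2]
      · exact congrFun (congrArg Prod.fst e3) ⟨v, h1⟩
    · exact congrFun (congrArg Prod.snd e3) i
  have hfin : (PU L c E Y).Finite := Set.Finite.of_injOn hmap hinj S.finite_toSet
  refine ⟨hfin, ?_⟩
  have h1 : (PU L c E Y).ncard ≤ S.card := by
    have := Set.ncard_le_ncard_of_injOn F hmap hinj S.finite_toSet
    rwa [Set.ncard_coe_finset] at this
  have h2 : (S.card : ℝ) = ∑ n ∈ AF K Y, (Fintype.card P : ℝ) ^ n.card *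
      ((Fintype.card P : ℝ) ^ E.card * (Fintype.card P : ℝ) ^ A.g) := by
    rw [Finset.card_sigma]
    push_cast
    refine Finset.sum_congr rfl fun n _ => ?_
    rw [Finset.card_univ, Fintype.card_prod, Fintype.card_prod, Fintype.card_fun,
      Fintype.card_fun, Fintype.card_fun, Fintype.card_coe, Fintype.card_coe, Fintype.card_fin]
    push_cast
    rfl
  have h3 : ((PU L c E Y).ncard : ℝ) ≤ (S.card : ℝ) := by exact_mod_cast h1
  have h4 := (hpow Y hY).1
  rw [h2, ← Finset.sum_mul] at h3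
  refine h3.trans ((mul_le_mul_of_nonneg_right h4 (by positivity)).trans (le_of_eq ?_))
  rw [Nat.card_eq_fintype_card]
  ring

end H35.AC
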