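import Pool.Agent.H35.AC.Trv

/-!
# [H35 AC PL] the P-level statements from UB and AP

* `pl_lim`: (L). `M` from `APl`, `M' = max M M₀` for `UBK`, `B ε ≤ 1/2`. `SYG` is the disjoint union of its part with `Rch` (`M`) and its part without `Rch`, which is
  contained in `Por` for `M'` (both finite, `trv`; `SYG ⊆ PU L c ∅ Y`); the second part is at most `C Y (log Y)^(N - 3/2)`, so negligible compared with
  `Y (log Y)^(N-1)`.
* `pl_pos`: (P). From `APp`; the elements of `SYG L Q c 1 Y` (`Q` from `exists_DP`) satisfy the conditions of `LBd`: `T` = the primes with `φ (L.t v) ≠ 1`, inertia in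
  `zpowers (φ (L.t v))` (`tm_z`, or `H48.MF.ing_inr` / `H77.WE.hon_inrE`).
* `pl_ub`: (U). Given `η`, choose `A₁` with `A₁ η ≥ 2 (A + N + 1)`. If `nr E > (log Y)^A₁` use `trv` (`(card P)^(#E) ≤ C_η (nr E)^(η/2)`: the norms are at least `2`, finitely many
  primes of norm `≤ (card P)^(2/η)`). If `nr E ≤ (log Y)^A₁` and `Y ≥ Y₀`: `UBK` and `APu` with `E` replaced by `E \ S0` (the set `PU` does not change). For `Y < Y₀` again `trv`.
-/

set_option autoImplicit false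

open scoped NumberField
open IsDedekindDomain Filter Topology
open scoped Classical

noncomputable section

namespace H35.AC

open H38.ML H63.MA H38.BB H38.BG H57.PC H57.BRA H57.CC H77.WD H77.WE H77.PC3 H77.S0T H77.FLD
  H77.PLF H35.UB

variable {K : IntermediateField ℚ QBar} [NumberField K] {p : ℕ} {ζ : K} {D : RD0 K p ζ}
  {P : Type} [Group P] [Finite P] {N : ℕ}

theorem syg_sub (L : LDs D QBar) (Q : DP K QBar) (c : CL p N P) (φ₁ : Gal(QBar/K) →* P) (Y : ℝ) :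
    SYG L Q c φ₁ Y ⊆ PU L c ∅ Y := by
  rintro φ ⟨h1, h2, -, h4, h5⟩
  exact ⟨h1, h2, fun v hv _ => h4 v hv, fun T hT => h5 T fun v hv => ⟨(hT v hv).1, (hT v hv).2.2⟩⟩

theorem por_of (L : LDs D QBar) (c : CL p N P) (E : Finset (Pl K)) {M M' : ℕ} (hM : M ≤ M')
    {ε Y : ℝ} {φ : Gal(QBar/K) →* P} (h : ¬ Rch L c E M ε Y φ) : Por L c E M' ε Y φ := by
  unfold Rch at h
  push Not at h
  obtain ⟨i, hi⟩ := h
  exact ⟨i, hi.trans_le hM⟩

private theorem eps_ok {B : ℝ} (hB : 0 ≤ B) : 0 < 1 / (2 * (B + 1)) ∧ 1 / (2 * (B + 1)) < 1 ∧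
    B * (1 / (2 * (B + 1))) ≤ 1 / 2 := by
  have h1 : 0 < 2 * (B + 1) := by linarith
  refine ⟨by positivity, ?_, ?_⟩
  · rw [div_lt_one h1]
    linarith
  · rw [mul_one_div, div_le_div_iff₀ h1 (by norm_num)]
    linarith

private theorem log_ge {Y : ℝ} (hY : 3 ≤ Y) : 1 ≤ Real.log Y := by
  rw [Real.le_log_iff_exp_le (by linarith)]
  have := Real.exp_one_lt_d9
  linarith

private theorem pow_bd {N : ℕ} (hN : 1 ≤ N) {l b : ℝ} (hl : 1 ≤ l) (hb : b ≤ 1 / 2) :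
    l ^ ((N : ℝ) - 2 + b) ≤ l ^ (N - 1) * l ^ (-(1 / 2) : ℝ) := by
  have h0 : 0 < l := by linarith
  have h1 : l ^ (N - 1) = l ^ ((N : ℝ) - 1) := by
    rw [← Real.rpow_natCast, Nat.cast_sub hN, Nat.cast_one]
  rw [h1, ← Real.rpow_add h0]
  exact Real.rpow_le_rpow_of_exponent_le hl (by linarith)

theorem pl_lim (hp : p.Prime) (hζ : IsPrimitiveRoot ζ p) (hP : IsPGroup p P) (hN : 1 ≤ N)
    (c : CL p N P) (hU : UBK D c) (hA : APl D c) (L : LDs D QBar) (Q : DP K QBar)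
    (φ₁ : Gal(QBar/K) →* P) (hφ : FT φ₁) :
    ∃ L₀ : ℝ, Tendsto (fun Y : ℝ => ((SYG L Q c φ₁ Y).ncard : ℝ) /
      (Y * Real.log Y ^ (N - 1))) atTop (𝓝 L₀) := by
  obtain ⟨M, hA⟩ := hA
  obtain ⟨M₀, B, hB, hU⟩ := hU
  obtain ⟨hε, hε1, hBε⟩ := eps_ok hB
  set ε : ℝ := 1 / (2 * (B + 1)) with hεd
  obtain ⟨l, hl⟩ := hA ε hε hε1 L Q φ₁ hφ
  obtain ⟨C, Y₀, hC, hY₀, hUb⟩ := hU (max M M₀) 0 ε (le_max_right _ _) hε hε1
  obtain ⟨_, _, -, -, htr⟩ := trv hp hζ hP L c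
  refine ⟨l, ?_⟩
  have hb : Tendsto (fun Y : ℝ => ((SYG L Q c φ₁ Y).ncard : ℝ) / (Y * Real.log Y ^ (N - 1)) -
      ({φ | φ ∈ SYG L Q c φ₁ Y ∧ Rch L c ∅ M ε Y φ}.ncard : ℝ) / (Y * Real.log Y ^ (N - 1)))
      atTop (𝓝 0) := by
    have hlim : Tendsto (fun Y : ℝ => C * Real.log Y ^ (-(1 / 2) : ℝ)) atTop (𝓝 0) := by
      have h1 := (tendsto_rpow_neg_atTop (by norm_num : (0 : ℝ) < 1 / 2)).comp
        Real.tendsto_log_atTop
      have h2 := h1.const_mul C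
      rw [mul_zero] at h2
      exact h2
    refine squeeze_zero' ?_ ?_ hlim
    · filter_upwards [eventually_ge_atTop (max Y₀ 3)] with Y hY
      have hY3 : 3 ≤ Y := (le_max_right _ _).trans hY
      have hlog := log_ge hY3
      have hden : 0 < Y * Real.log Y ^ (N - 1) := by positivity
      rw [← sub_div]
      refine div_nonneg (sub_nonneg.2 ?_) hden.le
      have hfin := (htr ∅ Y (by linarith)).1.subset (syg_sub L Q c φ₁ Y)
      have h1 : {φ | φ ∈ SYG L Q c φ₁ Y ∧ Rch L c ∅ M ε Y φ} ⊆ SYG L Q c φ₁ Y := fun φ hφ => hφ.1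
      exact_mod_cast Set.ncard_le_ncard h1 hfin
    · filter_upwards [eventually_ge_atTop (max Y₀ 3)] with Y hY
      have hY3 : 3 ≤ Y := (le_max_right _ _).trans hY
      have hYY : Y₀ ≤ Y := (le_max_left _ _).trans hY
      have hlog := log_ge hY3
      have hY0 : 0 < Y := by linarith
      have hlp : 0 < Real.log Y ^ (N - 1) := by positivity
      have hden : 0 < Y * Real.log Y ^ (N - 1) := by positivity
      have hfin := (htr ∅ Y (by linarith)).1.subset (syg_sub L Q c φ₁ Y)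
      obtain ⟨hf2, hb2⟩ := hUb L ∅ Y hYY (by
        unfold nr
        rw [Finset.prod_empty, Real.rpow_zero]) (fun v hv => absurd hv (Finset.notMem_empty v))
      have h1 := Set.ncard_inter_add_ncard_diff_eq_ncard (SYG L Q c φ₁ Y)
        {φ | Rch L c ∅ M ε Y φ} hfin
      have h2 : (SYG L Q c φ₁ Y \ {φ | Rch L c ∅ M ε Y φ}).ncard ≤
          {φ | φ ∈ PU L c ∅ Y ∧ Por L c ∅ (max M M₀) ε Y φ}.ncard := by
        refine Set.ncard_le_ncard (fun φ hφ => ?_) hf2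
        exact ⟨syg_sub L Q c φ₁ Y hφ.1, por_of L c ∅ (le_max_left _ _) hφ.2⟩
      have h3 : ((SYG L Q c φ₁ Y).ncard : ℝ) -
          ({φ | φ ∈ SYG L Q c φ₁ Y ∧ Rch L c ∅ M ε Y φ}.ncard : ℝ) ≤
          C * Y * Real.log Y ^ ((N : ℝ) - 2 + B * ε) := by
        have h4 : ({φ | φ ∈ SYG L Q c φ₁ Y ∧ Rch L c ∅ M ε Y φ}.ncard : ℝ) +
            ((SYG L Q c φ₁ Y \ {φ | Rch L c ∅ M ε Y φ}).ncard : ℝ) =
            ((SYG L Q c φ₁ Y).ncard : ℝ) := by exact_mod_cast h1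
        have h5 : ((SYG L Q c φ₁ Y \ {φ | Rch L c ∅ M ε Y φ}).ncard : ℝ) ≤
            ({φ | φ ∈ PU L c ∅ Y ∧ Por L c ∅ (max M M₀) ε Y φ}.ncard : ℝ) := by exact_mod_cast h2
        rw [Finset.card_empty, pow_zero, mul_one] at hb2
        linarith
      rw [← sub_div, div_le_iff₀ hden]
      refine h3.trans ?_
      have h6 := pow_bd hN hlog hBε
      calc C * Y * Real.log Y ^ ((N : ℝ) - 2 + B * ε)
          ≤ C * Y * (Real.log Y ^ (N - 1) * Real.log Y ^ (-(1 / 2) : ℝ)) :=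
            mul_le_mul_of_nonneg_left h6 (by positivity)
        _ = C * Real.log Y ^ (-(1 / 2) : ℝ) * (Y * Real.log Y ^ (N - 1)) := by ring
  have h1 := hl.add hb
  rw [add_zero] at h1
  refine h1.congr fun Y => ?_
  ring

theorem pl_pos (hp : p.Prime) (hζ : IsPrimitiveRoot ζ p) (hP : IsPGroup p P) (c : CL p N P)
    (hA : APp D c) (L : LDs D QBar) : LBd L c.g := by
  obtain ⟨M, hA⟩ := hA
  obtain ⟨Q⟩ := exists_DP K QBar
  obtain ⟨c₀, hc₀, hev⟩ := hA (1 / 2) (by norm_num) (by norm_num) L Q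
  obtain ⟨_, _, -, -, htr⟩ := trv hp hζ hP L c
  obtain ⟨X₁, hX₁⟩ := eventually_atTop.1 hev
  refine ⟨c₀, max X₁ 3, hc₀, le_max_right _ _, fun X hX => ?_⟩
  have hX3 : 3 ≤ X := (le_max_right _ _).trans hX
  have hsub := syg_sub L Q c 1 X
  have hfin : {φ | φ ∈ SYG L Q c 1 X ∧ Rch L c ∅ M (1 / 2) X φ}.Finite :=
    (htr ∅ X (by linarith)).1.subset fun φ hφ => hsub hφ.1
  refine ⟨hfin.toFinset, ?_, fun φ hφ => ?_⟩
  · have h1 := hX₁ X ((le_max_left _ _).trans hX)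
    rw [Set.ncard_eq_toFinset_card _ hfin] at h1
    rw [mul_assoc]
    exact h1
  · rw [Set.Finite.mem_toFinset] at hφ
    have h1 := hsub hφ.1
    have hI : ∀ v, ∀ τ ∈ inr L v, ∃ k : ℕ, φ τ ^ (p ^ k) = 1 := fun v τ _ => hP (φ τ)
    refine ⟨h1.1, h1.2.1, nfs L ∅ φ, fun v hv => ((mem_nfs h1 v).1 hv).1, ?_, fun v hv => ?_,
      fun v hv hv2 => ?_⟩
    · have h2 := nfs_AF h1
      rw [mem_AF] at h2
      exact h2
    · obtain ⟨h2, h3, h4⟩ := (mem_nfs h1 v).1 hv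
      rcases h1.2.2.1 v h2 h3 with h5 | ⟨i, hi⟩
      · exact absurd (h5 _ (lt_mem L h2)) h4
      · exact ⟨i, φ (L.t v), hi.2.1, (H48.MF.ing_inr hp hζ L h2 φ h1.1 (hI v)).1⟩
    · have h2 : φ (L.t v) = 1 := by
        by_contra h3
        exact hv2 ((mem_nfs h1 v).2 ⟨hv, Finset.notMem_empty v, h3⟩)
      exact (H48.MF.ing_inr hp hζ L hv φ h1.1 (hI v)).2.2 h2

omit [Finite P] in
theorem pu_sdiff (L : LDs D QBar) (c : CL p N P) (E : Finset (Pl K)) (Y : ℝ) :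
    PU L c (E \ D.S0) Y = PU L c E Y := by
  have h : ∀ v, v ∉ D.S0 → (v ∉ E \ D.S0 ↔ v ∉ E) := fun v hv => by
    rw [Finset.mem_sdiff]
    tauto
  ext φ
  refine and_congr Iff.rfl (and_congr Iff.rfl (and_congr ?_ ?_))
  · exact forall_congr' fun v => ⟨fun h1 hv he => h1 hv ((h v hv).2 he),
      fun h1 hv he => h1 hv ((h v hv).1 he)⟩
  · exact forall_congr' fun T => ⟨fun h1 hT => h1 fun v hv => ⟨(hT v hv).1,
      (h v (hT v hv).1).2 (hT v hv).2.1, (hT v hv).2.2⟩, fun h1 hT => h1 fun v hv =>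
      ⟨(hT v hv).1, (h v (hT v hv).1).1 (hT v hv).2.1, (hT v hv).2.2⟩⟩

/-- powers of constants are small powers of the norm -/
theorem cst_pow (K : Type) [Field K] [NumberField K] {C δ : ℝ} (hC : 1 ≤ C) (hδ : 0 < δ) :
    ∃ κ : ℝ, 1 ≤ κ ∧ ∀ E : Finset (Pl K), C ^ E.card ≤ κ * nr E ^ δ := by
  have hC0 : 0 < C := by linarith
  let F : Finset (Pl K) := (AF K (C ^ (1 / δ))).biUnion id
  refine ⟨C ^ F.card, one_le_pow₀ hC, fun E => ?_⟩
  have h1 : ∀ v, v ∉ F → C ≤ (nm v : ℝ) ^ δ := by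
    intro v hv
    have h2 : ¬ nr {v} ≤ C ^ (1 / δ) := fun h3 => hv (Finset.mem_biUnion.2
      ⟨{v}, mem_AF.2 h3, Finset.mem_singleton_self v⟩)
    unfold nr at h2
    rw [Finset.prod_singleton, not_le] at h2
    have h3 := Real.rpow_le_rpow (by positivity) h2.le hδ.le
    rwa [← Real.rpow_mul hC0.le, one_div, inv_mul_cancel₀ hδ.ne', Real.rpow_one] at h3
  have h2 : nr E ^ δ = ∏ v ∈ E, (nm v : ℝ) ^ δ := by
    unfold nr
    rw [← Real.finsetProd_rpow _ _ fun v _ => Nat.cast_nonneg _]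
  have h3 : ∀ v : Pl K, 1 ≤ (nm v : ℝ) ^ δ := fun v =>
    Real.one_le_rpow (by exact_mod_cast (one_lt_nm v).le) hδ.le
  have h4 : ∏ v ∈ E, (if v ∈ F then C else 1) = C ^ (E ∩ F).card := by
    rw [Finset.prod_ite_mem, Finset.prod_const]
  calc C ^ E.card = ∏ v ∈ E, C := (Finset.prod_const C).symm
    _ ≤ ∏ v ∈ E, ((if v ∈ F then C else 1) * (nm v : ℝ) ^ δ) := by
        refine Finset.prod_le_prod (fun v _ => hC0.le) fun v _ => ?_
        split_ifs with hv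
        · exact le_mul_of_one_le_right hC0.le (h3 v)
        · rw [one_mul]
          exact h1 v hv
    _ = C ^ (E ∩ F).card * nr E ^ δ := by rw [Finset.prod_mul_distrib, h4, h2]
    _ ≤ C ^ F.card * nr E ^ δ := mul_le_mul_of_nonneg_right
        (pow_le_pow_right₀ hC (Finset.card_le_card Finset.inter_subset_right))
        (Real.rpow_nonneg (zero_le_one.trans (one_le_nr E)) _)

theorem pl_ub (hp : p.Prime) (hζ : IsPrimitiveRoot ζ p) (hP : IsPGroup p P) (hN : 1 ≤ N)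
    (c : CL p N P) (hU : UBK D c) (hA : APu D c) (L : LDs D QBar) (η : ℝ) (hη : 0 < η) :
    ∃ C : ℝ, 0 < C ∧ ∀ (E : Finset (Pl K)) (Y : ℝ), 1 ≤ Y →
      ∀ Rs : Finset (Gal(QBar/K) →* P), (∀ ψ ∈ Rs, ψ ∈ PU L c E Y) →
        (Rs.card : ℝ) ≤ C * nr E ^ η * Y * (1 + Real.log Y) ^ (N - 1) := by
  obtain ⟨M, hA⟩ := hA
  obtain ⟨M₀, B, hB, hU⟩ := hU
  obtain ⟨hε, hε1, hBε⟩ := eps_ok hB
  set ε : ℝ := 1 / (2 * (B + 1)) with hεd
  obtain ⟨C₃, A₃, hC₃, hA₃, htr⟩ := trv hp hζ hP L c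
  set A₁ : ℝ := 2 * A₃ / η + 1 with hA₁
  have hA₁0 : 0 < A₁ := by positivity
  have hAA : A₃ / A₁ ≤ η / 2 := by
    rw [div_le_div_iff₀ hA₁0 (by norm_num), hA₁]
    have h1 : η * (2 * A₃ / η + 1) = 2 * A₃ + η := by field_simp
    rw [h1]
    linarith
  obtain ⟨C₁, Y₁, hC₁, hY₁, hAb⟩ := hA L A₁ ε hε hε1
  obtain ⟨C₂, Y₂, hC₂, hY₂, hUb⟩ := hU (max M M₀) A₁ ε (le_max_right _ _) hε hε1
  have hcP : 1 ≤ (Nat.card P : ℝ) := by exact_mod_cast Nat.card_pos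
  have hη2 : 0 < η / 2 := by positivity
  obtain ⟨κ, hκ, hκE⟩ := cst_pow K hcP hη2
  obtain ⟨κ₁, hκ₁, hκ₁E⟩ := cst_pow K hC₁ hη
  -- the three cases
  set Y₀ : ℝ := max Y₁ Y₂ with hY₀
  have hY₀3 : 3 ≤ Y₀ := hY₁.trans (le_max_left _ _)
  set D₁ : ℝ := C₃ * κ * 2 ^ A₃ with hD₁
  set D₂ : ℝ := C₁ * κ₁ + C₂ * κ with hD₂
  set D₃ : ℝ := C₃ * κ * (1 + Real.log Y₀) ^ A₃ with hD₃
  have hlY₀ : 0 ≤ Real.log Y₀ := Real.log_nonneg (by linarith)
  have hD₁0 : 0 < D₁ := by positivity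
  have hD₂0 : 0 < D₂ := by positivity
  have hD₃0 : 0 < D₃ := by positivity
  refine ⟨D₁ + D₂ + D₃, by positivity, fun E Y hY Rs hRs => ?_⟩
  have hlY : 0 ≤ Real.log Y := Real.log_nonneg hY
  have hY0 : 0 < Y := by linarith
  set E' : Finset (Pl K) := E \ D.S0 with hE'
  have hnr : nr E' ≤ nr E := nr_mono Finset.sdiff_subset
  have hn1 : 1 ≤ nr E' := one_le_nr E'
  have hn0 : 0 < nr E' := by linarith
  obtain ⟨hfin, hbd⟩ := htr E' Y hY
  have hR : (Rs.card : ℝ) ≤ ((PU L c E' Y).ncard : ℝ) := by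
    have h1 : (Rs : Set (Gal(QBar/K) →* P)) ⊆ PU L c E' Y := by
      rw [hE', pu_sdiff]
      exact hRs
    have h2 := Set.ncard_le_ncard h1 hfin
    rw [Set.ncard_coe_finset] at h2
    exact_mod_cast h2
  have hpw : 1 ≤ (1 + Real.log Y) ^ (N - 1) := one_le_pow₀ (by linarith)
  -- it is enough to have the bound for `E'`
  have key : ∀ D' : ℝ, 0 ≤ D' → D' ≤ D₁ + D₂ + D₃ →
      (Rs.card : ℝ) ≤ D' * nr E' ^ η * Y * (1 + Real.log Y) ^ (N - 1) →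
      (Rs.card : ℝ) ≤ (D₁ + D₂ + D₃) * nr E ^ η * Y * (1 + Real.log Y) ^ (N - 1) := by
    intro D' hD' hD'' h
    refine h.trans ?_
    have h1 : nr E' ^ η ≤ nr E ^ η := Real.rpow_le_rpow hn0.le hnr hη.le
    have h2 : 0 ≤ nr E' ^ η := Real.rpow_nonneg hn0.le _
    have h3 : D' * nr E' ^ η ≤ (D₁ + D₂ + D₃) * nr E ^ η :=
      mul_le_mul hD'' h1 h2 (by positivity)
    exact mul_le_mul_of_nonneg_right (mul_le_mul_of_nonneg_right h3 hY0.le) (by linarith)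
  have hhalf : nr E' ^ (η / 2) * nr E' ^ (η / 2) = nr E' ^ η := by
    rw [← Real.rpow_add hn0, add_halves]
  have hhle : nr E' ^ (η / 2) ≤ nr E' ^ η :=
    Real.rpow_le_rpow_of_exponent_le hn1 (by linarith)
  have hh0 : 0 ≤ nr E' ^ (η / 2) := Real.rpow_nonneg hn0.le _
  have hh1 : 0 ≤ nr E' ^ η := Real.rpow_nonneg hn0.le _
  by_cases hYY : Y < Y₀
  · refine key D₃ hD₃0.le (by linarith) (hR.trans (hbd.trans ?_))
    have h1 : (1 + Real.log Y) ^ A₃ ≤ (1 + Real.log Y₀) ^ A₃ :=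
      Real.rpow_le_rpow (by linarith) (by linarith [Real.log_le_log hY0 hYY.le]) hA₃
    have h2 := (hκE E').trans (mul_le_mul_of_nonneg_left hhle (by linarith : (0 : ℝ) ≤ κ))
    calc C₃ * (Nat.card P : ℝ) ^ E'.card * Y * (1 + Real.log Y) ^ A₃
        ≤ C₃ * (κ * nr E' ^ η) * Y * (1 + Real.log Y₀) ^ A₃ := by gcongr
      _ = D₃ * nr E' ^ η * Y * 1 := by rw [hD₃]; ring
      _ ≤ D₃ * nr E' ^ η * Y * (1 + Real.log Y) ^ (N - 1) := by gcongr
  have hYY' : Y₀ ≤ Y := not_lt.1 hYY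
  have hY3 : 3 ≤ Y := hY₀3.trans hYY'
  have hl1 := log_ge hY3
  have hl0 : 0 < Real.log Y := by linarith
  by_cases hbig : nr E' ≤ Real.log Y ^ A₁
  · have hE0 : ∀ v ∈ E', v ∉ D.S0 := fun v hv => (Finset.mem_sdiff.1 hv).2
    obtain ⟨hf1, hb1⟩ := hAb E' Y ((le_max_left _ _).trans hYY') hbig hE0
    obtain ⟨hf2, hb2⟩ := hUb L E' Y ((le_max_right _ _).trans hYY') hbig hE0
    refine key D₂ hD₂0.le (by linarith) ?_
    have h1 : PU L c E' Y ⊆ {φ | φ ∈ PU L c E' Y ∧ Rch L c E' M ε Y φ} ∪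
        {φ | φ ∈ PU L c E' Y ∧ Por L c E' (max M M₀) ε Y φ} := by
      intro φ hφ
      by_cases h2 : Rch L c E' M ε Y φ
      · exact Or.inl ⟨hφ, h2⟩
      · exact Or.inr ⟨hφ, por_of L c E' (le_max_left _ _) h2⟩
    have h2 := (Set.ncard_le_ncard h1 (hf1.union hf2)).trans (Set.ncard_union_le _ _)
    have h3 : ((PU L c E' Y).ncard : ℝ) ≤
        ({φ | φ ∈ PU L c E' Y ∧ Rch L c E' M ε Y φ}.ncard : ℝ) +
        ({φ | φ ∈ PU L c E' Y ∧ Por L c E' (max M M₀) ε Y φ}.ncard : ℝ) := by exact_mod_cast h2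
    have h4 : C₁ ^ (E'.card + 1) ≤ C₁ * κ₁ * nr E' ^ η := by
      rw [pow_succ', mul_assoc]
      exact mul_le_mul_of_nonneg_left (hκ₁E E') (by linarith)
    have h5 : Real.log Y ^ (N - 1) ≤ (1 + Real.log Y) ^ (N - 1) :=
      pow_le_pow_left₀ hl0.le (by linarith) _
    have h6 : Real.log Y ^ ((N : ℝ) - 2 + B * ε) ≤ (1 + Real.log Y) ^ (N - 1) := by
      refine (pow_bd hN hl1 hBε).trans ?_
      have h7 : Real.log Y ^ (-(1 / 2) : ℝ) ≤ 1 :=
        Real.rpow_le_one_of_one_le_of_nonpos hl1 (by norm_num)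
      refine le_trans ?_ h5
      exact mul_le_of_le_one_right (by positivity) h7
    have h7 := (hκE E').trans (mul_le_mul_of_nonneg_left hhle (by linarith : (0 : ℝ) ≤ κ))
    have hpw0 : 0 ≤ (1 + Real.log Y) ^ (N - 1) := by linarith
    have hC₂0 : 0 ≤ C₂ := by linarith
    have hC₁0 : 0 ≤ C₁ := by linarith
    have hκ₁0 : 0 ≤ κ₁ := by linarith
    have h8 : C₁ ^ (E'.card + 1) * Y * Real.log Y ^ (N - 1) ≤
        C₁ * κ₁ * nr E' ^ η * Y * (1 + Real.log Y) ^ (N - 1) :=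
      mul_le_mul (mul_le_mul_of_nonneg_right h4 hY0.le) h5 (by positivity) (by positivity)
    have hκ0 : 0 ≤ κ := by linarith
    have h9 : C₂ * (Nat.card P : ℝ) ^ E'.card * Y * Real.log Y ^ ((N : ℝ) - 2 + B * ε) ≤
        C₂ * (κ * nr E' ^ η) * Y * (1 + Real.log Y) ^ (N - 1) :=
      mul_le_mul (mul_le_mul_of_nonneg_right (mul_le_mul_of_nonneg_left h7 hC₂0) hY0.le) h6
        (Real.rpow_nonneg hl0.le _) (by positivity)
    calc (Rs.card : ℝ) ≤ _ := hR.trans h3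
      _ ≤ _ := add_le_add (hb1.trans h8) (hb2.trans h9)
      _ = D₂ * nr E' ^ η * Y * (1 + Real.log Y) ^ (N - 1) := by rw [hD₂]; ring
  · refine key D₁ hD₁0.le (by linarith) (hR.trans (hbd.trans ?_))
    have h1 : Real.log Y ^ A₃ ≤ nr E' ^ (η / 2) := by
      have h2 : Real.log Y ^ A₃ = (Real.log Y ^ A₁) ^ (A₃ / A₁) := by
        rw [← Real.rpow_mul hl0.le, mul_div_cancel₀ _ hA₁0.ne']
      rw [h2]
      refine (Real.rpow_le_rpow (Real.rpow_nonneg hl0.le _) (not_le.1 hbig).le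
        (by positivity)).trans ?_
      exact Real.rpow_le_rpow_of_exponent_le hn1 hAA
    have h2 : (1 + Real.log Y) ^ A₃ ≤ 2 ^ A₃ * nr E' ^ (η / 2) := by
      have h3 : (1 + Real.log Y) ^ A₃ ≤ (2 * Real.log Y) ^ A₃ :=
        Real.rpow_le_rpow (by linarith) (by linarith) hA₃
      rw [Real.mul_rpow (by norm_num) hl0.le] at h3
      exact h3.trans (mul_le_mul_of_nonneg_left h1 (by positivity))
    calc C₃ * (Nat.card P : ℝ) ^ E'.card * Y * (1 + Real.log Y) ^ A₃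
        ≤ C₃ * (κ * nr E' ^ (η / 2)) * Y * (2 ^ A₃ * nr E' ^ (η / 2)) := by
          have h4 := hκE E'
          gcongr
      _ = D₁ * (nr E' ^ (η / 2) * nr E' ^ (η / 2)) * Y * 1 := by rw [hD₁]; ring
      _ ≤ D₁ * nr E' ^ η * Y * (1 + Real.log Y) ^ (N - 1) := by
          rw [hhalf]
          gcongr

end H35.AC
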