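import Pool.Agent.H35.UB.Top
import Pool.Agent.H77.PLF.Defs

/-!
# H35-AC: the statements of the chapters UB and AP which give the P-level theorem (MP_b39724_nt, Sylow subgroups of exponent p)

`K ⊂ QBar` a number field with the roots of unity of order `p`, `p ^ 2` (and `p ^ m` for AP), `P` a finite group of exponent `p`, `c` a complete system of
classes. A class is rich for `φ` if it has at least `M` typed primes of norm `> T0 ε Y = exp ((log Y)^ε)`.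
* `Rch`: all classes are rich. `Por`: some class is not rich.
* `UBK`: the upper bound for `Por` (chapter UB). `APl`, `APu`, `APp`: the asymptotic formula, the uniform upper bound and the positivity for `Rch`, for one `M`
  (for example `M = 1`) (chapter AP).
-/

set_option autoImplicit false

open scoped NumberField
open IsDedekindDomain Filter Topology
open scoped Classical

noncomputable section

namespace H35.AC

open H38.ML H63.MA H38.BB H38.BG H57.PC H57.BRA H77.WD H77.PC3 H77.S0T H77.FLD H77.PLF H35.CF H35.UB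

variable {K : IntermediateField ℚ QBar} [NumberField K] {p : ℕ} {ζ : K} {D : RD0 K p ζ}
  {P : Type} [Group P] {N : ℕ}

/-- all classes are rich -/
def Rch (L : LDs D QBar) (c : CL p N P) (E : Finset (Pl K)) (M : ℕ) (ε Y : ℝ)
    (φ : Gal(QBar/K) →* P) : Prop := ∀ i, M ≤ tyn L c E (T0 ε Y) φ i

/-- some class is not rich -/
def Por (L : LDs D QBar) (c : CL p N P) (E : Finset (Pl K)) (M : ℕ) (ε Y : ℝ)
    (φ : Gal(QBar/K) →* P) : Prop := ∃ i, tyn L c E (T0 ε Y) φ i < M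

/-- UB for the number of homomorphisms with a class which is not rich -/
def UBK (D : RD0 K p ζ) (c : CL p N P) : Prop :=
  ∃ M₀ : ℕ, ∃ B : ℝ, 0 ≤ B ∧ ∀ (M : ℕ) (A₁ ε : ℝ), M₀ ≤ M → 0 < ε → ε < 1 →
    ∃ C Y₀ : ℝ, 1 ≤ C ∧ 3 ≤ Y₀ ∧
    ∀ (L₀ : LDs D QBar) (E : Finset (Pl K)) (Y : ℝ), Y₀ ≤ Y → nr E ≤ Real.log Y ^ A₁ →
      (∀ v ∈ E, v ∉ D.S0) →
      {φ | φ ∈ PU L₀ c E Y ∧ Por L₀ c E M ε Y φ}.Finite ∧
      ({φ | φ ∈ PU L₀ c E Y ∧ Por L₀ c E M ε Y φ}.ncard : ℝ) ≤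
        C * (Nat.card P : ℝ) ^ E.card * Y * Real.log Y ^ ((N : ℝ) - 2 + B * ε)

/-- AP: the asymptotic formula for the homomorphisms of local type `φ₁` with all classes rich -/
def APl (D : RD0 K p ζ) (c : CL p N P) : Prop :=
  ∃ M : ℕ, ∀ ε : ℝ, 0 < ε → ε < 1 →
    ∀ (L : LDs D QBar) (Q : DP K QBar) (φ₁ : Gal(QBar/K) →* P), FT φ₁ →
      ∃ l : ℝ, Tendsto (fun Y : ℝ =>
        ({φ | φ ∈ SYG L Q c φ₁ Y ∧ Rch L c ∅ M ε Y φ}.ncard : ℝ) / (Y * Real.log Y ^ (N - 1)))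
        atTop (𝓝 l)

/-- AP: positivity for the trivial type -/
def APp (D : RD0 K p ζ) (c : CL p N P) : Prop :=
  ∃ M : ℕ, ∀ ε : ℝ, 0 < ε → ε < 1 →
    ∀ (L : LDs D QBar) (Q : DP K QBar), ∃ c₀ : ℝ, 0 < c₀ ∧ ∀ᶠ Y : ℝ in atTop,
      c₀ * (Y * Real.log Y ^ (N - 1)) ≤
        ({φ | φ ∈ SYG L Q c 1 Y ∧ Rch L c ∅ M ε Y φ}.ncard : ℝ)

/-- AP: the upper bound, uniformly in the exceptional set `E` -/
def APu (D : RD0 K p ζ) (c : CL p N P) : Prop :=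
  ∃ M : ℕ, ∀ (L : LDs D QBar) (A₁ ε : ℝ), 0 < ε → ε < 1 → ∃ C Y₀ : ℝ, 1 ≤ C ∧ 3 ≤ Y₀ ∧
    ∀ (E : Finset (Pl K)) (Y : ℝ), Y₀ ≤ Y → nr E ≤ Real.log Y ^ A₁ →
      (∀ v ∈ E, v ∉ D.S0) →
      {φ | φ ∈ PU L c E Y ∧ Rch L c E M ε Y φ}.Finite ∧
      ({φ | φ ∈ PU L c E Y ∧ Rch L c E M ε Y φ}.ncard : ℝ) ≤
        C ^ (E.card + 1) * Y * Real.log Y ^ (N - 1)

end H35.AC
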