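import Pool.Agent.H62.BL.Bl1
import Pool.Agent.H86.AP.Fin

/-!
# H35-AC-ALL: the P-level theorem for groups of exponent `p`, `p` odd (MP_b39724_nt, all classes, stage 1)
-/

set_option autoImplicit false

noncomputable section

namespace H35.AC

/-- the P-level theorem for groups of exponent `p` -/
theorem plv_all {p : ℕ} (hp : p.Prime) (hp2 : p ≠ 2) : H77.PLF.PLv p :=
  plv hp hp2 (H86.AP.ap_fin hp hp2) (H62.BL.bl1 hp hp2)

end H35.AC
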