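import Pool.Agent.H35.AC.Pl
import Pool.Agent.H35.UB.Fin
import Pool.Agent.H57.GP.Wrp

/-!
# H35-AC-FIN: the P-level theorem for groups of exponent p (MP_b39724_nt, all classes, stage 1), assembly

* `APst p`: the three statements of chapter AP for all groups of exponent `p`. `BL1 p`: the box lemma of chapter BL for groups of exponent `p`.
* `plv`: `PLv p`.
-/

set_option autoImplicit false

open scoped NumberField
open IsDedekindDomain Filter Topology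
open scoped Classical

noncomputable section

namespace H35.AC

open H38.ML H63.MA H38.BB H38.BG H57.PC H57.BRA H57.CC H77.WD H77.WE H77.PC3 H77.S0T H77.FLD
  H77.PLF H35.UB

/-- AP for groups of exponent `p` -/
def APst (p : ℕ) : Prop :=
  ∀ (P : Type) [Group P] [Finite P] (_ : ∀ x : P, x ^ p = 1) (_ : Nontrivial P), ∃ M : ℕ,
    ∀ (N : ℕ) (c : CL p N P) (_ : ∀ x : P, x ≠ 1 → ∃ i, IsConj x (c.g i))
      (K : IntermediateField ℚ QBar) [NumberField K] (ζ : K) (_ : IsPrimitiveRoot ζ p) (z : K)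
      (_ : IsPrimitiveRoot z (p ^ M)) (D : RD K p ζ),
      APl D.toRD0 c ∧ APp D.toRD0 c ∧ APu D.toRD0 c

/-- BL for groups of exponent `p` -/
def BL1 (p : ℕ) : Prop :=
  ∀ m : ℕ, ∃ M : ℕ, ∀ (K : IntermediateField ℚ QBar) [NumberField K] (ζ : K)
    (_ : IsPrimitiveRoot ζ p) (z : K) (_ : IsPrimitiveRoot z (p ^ M)) (D : RD K p ζ)
    (A : GS D.toRD0 QBar), BLst D.toRD0 QBar A 1 m

theorem prm_pow {K : Type} [Field K] {p M M' : ℕ} (hp : p.Prime) {z : K}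
    (hz : IsPrimitiveRoot z (p ^ M)) (h : M' ≤ M) : ∃ z' : K, IsPrimitiveRoot z' (p ^ M') := by
  refine ⟨z ^ (p ^ (M - M')), hz.pow (pow_pos hp.pos _) ?_⟩
  rw [← pow_add]
  congr 1
  omega

theorem plv {p : ℕ} (hp : p.Prime) (hp2 : p ≠ 2) (hA : APst p) (hB : BL1 p) : PLv p := by
  intro P _ _ hP hPn
  haveI : NeZero p := ⟨hp.ne_zero⟩
  haveI : Fintype P := Fintype.ofFinite P
  obtain ⟨MA, hMA⟩ := hA P hP hPn
  obtain ⟨MB, hMB⟩ := hB (Nat.card P)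
  refine ⟨MA + MB + 2, by omega, fun N c hc => ?_⟩
  have hPg : IsPGroup p P := fun x => ⟨1, by rw [pow_one]; exact hP x⟩
  have hN : 1 ≤ N := by
    obtain ⟨x, hx⟩ := exists_ne (1 : P)
    obtain ⟨i, -⟩ := hc x hx
    exact Nat.one_le_iff_ne_zero.2 fun h => (h ▸ i).elim0
  have key : ∀ (K : IntermediateField ℚ QBar) [NumberField K] (ζ : K) (_ : IsPrimitiveRoot ζ p)
      (z : K) (_ : IsPrimitiveRoot z (p ^ (MA + MB + 2))) (D : RD K p ζ),
      UBK D.toRD0 c ∧ APl D.toRD0 c ∧ APp D.toRD0 c ∧ APu D.toRD0 c := by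
    intro K _ ζ hζ z hz D
    obtain ⟨zA, hzA⟩ := prm_pow hp hz (show MA ≤ MA + MB + 2 by omega)
    obtain ⟨zB, hzB⟩ := prm_pow hp hz (show MB ≤ MA + MB + 2 by omega)
    exact ⟨ubf hp hζ D.toRD0 1 (fun x => by rw [pow_one]; exact hP x) (H57.GP.gpu hp hp2 hζ D.toRD0)
      (fun A => hMB K ζ hζ zB hzB D A) c, hMA N c hc K ζ hζ zA hzA D⟩
  refine ⟨?_, ?_, ?_⟩
  · intro K _ ζ hζ z hz D L Q _ φ₁ hφ
    obtain ⟨h1, h2, -, -⟩ := key K ζ hζ z hz D
    exact pl_lim hp hζ hPg hN c h1 h2 L Q φ₁ hφ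
  · intro K _ ζ hζ z hz D L η hη
    obtain ⟨h1, -, -, h4⟩ := key K ζ hζ z hz D
    exact pl_ub hp hζ hPg hN c h1 h4 L η hη
  · intro K _ ζ hζ z hz D L
    obtain ⟨-, -, h3, -⟩ := key K ζ hζ z hz D
    exact pl_pos hp hζ hPg c h3 L

end H35.AC
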